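import Pool.Agent.Helper84_TMP.Stmt

/-! # Coordinates of unipotent elements (module COO, MP_eadad4_nt, squad TMP) -/

set_option autoImplicit false

open scoped BigOperators

namespace Pool.Agent.TMP.H63

open Pool.Agent.DEN Pool.Agent.TMP

section

variable {r : ℕ} {C : Matrix (Fin r) (Fin r) ℤ} {K : Type} [Field K]

theorem ip_al (i : Fin r) (y : Fin r → ℤ) : ip C (al i) y = ∑ j, C i j * y j := by
  unfold ip al
  rw [Finset.sum_eq_single i]
  · simp
  · intro j _ hj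
    simp [Pi.single_eq_of_ne hj]
  · intro h
    exact absurd (Finset.mem_univ i) h

theorem ip_exp (x y : Fin r → ℤ) : ip C x y = ∑ i, x i * ip C (al i) y := by
  have h1 : ∀ i, x i * ip C (al i) y = ∑ j, x i * C i j * y j := by
    intro i
    rw [ip_al, Finset.mul_sum]
    exact Finset.sum_congr rfl fun j _ => by ring
  rw [Finset.sum_congr rfl fun i _ => h1 i]
  rfl

/-- the vector `2ρ` -/
noncomputable def rho (C : Matrix (Fin r) (Fin r) ℤ) : Fin r → ℤ :=
  ∑ᶠ β : {β : Rt C // β.Pos}, β.1.1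

variable (hC : SimplyLaced C)
include hC

theorem ip_rho (i : Fin r) : ip C (al i) (rho C) = 2 := by
  have := H22.hRF r C hC
  rw [← (H22.hRD r C hC).2.2 i]
  unfold rho
  let f : (Fin r → ℤ) →+ ℤ :=
    { toFun := fun y => ip C (al i) y
      map_zero' := ip_zero_right C _
      map_add' := fun a b => ip_add_right C _ a b }
  have h1 : f (∑ᶠ β : {β : Rt C // β.Pos}, β.1.1) =
      ∑ᶠ β : {β : Rt C // β.Pos}, f β.1.1 :=
    AddMonoidHom.map_finsum f (Set.toFinite _)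
  refine h1.trans ?_
  refine finsum_congr fun β => ?_
  exact hC.ip_comm _ _

theorem ip_ht (β : Rt C) : ip C β.1 (rho C) = 2 * ht β := by
  rw [ip_exp]
  simp only [ip_rho hC]
  rw [← Finset.sum_mul]
  unfold ht
  ring

theorem dom_rho : IsDom C (rho C) := fun i => by rw [ip_rho hC]; norm_num

theorem UH_eq {h : ℕ} (hh : 1 ≤ h) : UH hC K h = Ul C K (rho C) h := by
  unfold UH Ul
  congr 1
  ext g
  constructor
  · rintro ⟨β, a, h1, rfl⟩
    refine ⟨β, a, ?_, h1, fun v => rfl⟩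
    rw [ip_ht hC]
    have : (1 : ℤ) ≤ h := by exact_mod_cast hh
    omega
  · rintro ⟨β, a, _, h2, h3⟩
    exact ⟨β, a, h2, eq_xg hC β a g h3⟩

omit hC in
theorem Ul_le (l : Fin r → ℤ) (k : ℕ) : Ul C K l k ≤ Ul C K l 0 := by
  refine Subgroup.closure_mono ?_
  rintro g ⟨β, a, h1, h2, h3⟩
  exact ⟨β, a, h1, by push_cast; omega, h3⟩

/-- the index of a coordinate which does not vanish in `F` -/
noncomputable def ix (K : Type) [Field K] (β : Rt C) : Fin r :=
  (H38.root_ne_zero (K := K) H22.hRS hC β).choose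

theorem ix_spec (β : Rt C) : ((β.1 (ix hC K β) : ℤ) : FF K) ≠ 0 :=
  (H38.root_ne_zero (K := K) H22.hRS hC β).choose_spec

/-- the coordinate -/
noncomputable def cc (u : grp C K) (β : Rt C) : FF K :=
  -((u.1 (EE β.neg)).1 (ix hC K β)) / ((β.1 (ix hC K β) : ℤ) : FF K)

theorem cc_of {u : grp C K} {β : Rt C} {c : FF K}
    (h : (u.1 (EE β.neg)).1 = fun i => -(c * ((β.1 i : ℤ) : FF K))) : cc hC u β = c := by
  unfold cc
  rw [h]
  simp only [neg_neg]
  exact mul_div_cancel_right₀ _ (ix_spec hC β)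

theorem uh_fst {h : ℕ} (hh : 1 ≤ h) {u : grp C K} (hu : u ∈ UH hC K h) {β : Rt C}
    (hβ : ht β = h) : (u.1 (EE β.neg)).1 = fun i => -(cc hC u β * ((β.1 i : ℤ) : FF K)) := by
  rw [UH_eq hC hh] at hu
  have h0 : 0 < ip C β.1 (rho C) := by
    rw [ip_ht hC, hβ]
    have : (1 : ℤ) ≤ h := by exact_mod_cast hh
    omega
  obtain ⟨c, hc⟩ := (H22.hCar r C hC K (rho C) (dom_rho hC) h).1 u hu β h0 hβ
  rw [cc_of hC hc]
  exact hc

theorem uh_add {h : ℕ} (hh : 1 ≤ h) {u v : grp C K} (hu : u ∈ UH hC K h) (hv : v ∈ UH hC K h)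
    {β : Rt C} (hβ : ht β = h) :
    ((u * v).1 (EE β.neg)).1 = (u.1 (EE β.neg)).1 + (v.1 (EE β.neg)).1 := by
  rw [UH_eq hC hh] at hu hv
  have h0 : 0 < ip C β.1 (rho C) := by
    rw [ip_ht hC, hβ]
    have : (1 : ℤ) ≤ h := by exact_mod_cast hh
    omega
  exact (H22.hCar r C hC K (rho C) (dom_rho hC) h).2.2 u (Ul_le _ h hu) v hv β h0 hβ

theorem uh_zero {h : ℕ} (hh : 1 ≤ h) {u : grp C K} (hu : u ∈ UH hC K (h + 1)) {β : Rt C}
    (hβ : ht β = h) : (u.1 (EE β.neg)).1 = 0 := by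
  have hle := UH_mono (K := K) hC (Nat.le_succ h)
  have h2 : u ∈ UH hC K h ∧ (u.1 (EE β.neg)).1 = 0 := by
    unfold UH at hu
    induction hu using Subgroup.closure_induction with
    | mem g hg =>
      obtain ⟨γ, a, h1, rfl⟩ := hg
      refine ⟨Subgroup.subset_closure ⟨γ, a, by push_cast at h1; omega, rfl⟩, ?_⟩
      funext i
      rw [H38.xg_EE hC β γ a i, if_neg]
      · rfl
      · rintro rfl
        push_cast at h1
        omega
    | one => exact ⟨one_mem _, rfl⟩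
    | mul x y _ _ hx hy =>
      refine ⟨mul_mem hx.1 hy.1, ?_⟩
      rw [uh_add hC hh hx.1 hy.1 hβ, hx.2, hy.2, add_zero]
    | inv x _ hx =>
      refine ⟨inv_mem hx.1, ?_⟩
      have h1 := uh_add hC hh hx.1 (inv_mem hx.1) hβ
      rw [mul_inv_cancel, hx.2, zero_add] at h1
      rw [← h1]
      rfl
  exact h2.2

omit hC in
theorem inv_mem_Bd (n : ℤ) : (((n : ℤ) : FF K))⁻¹ ∈ Bd K 0 := by
  have h1 : ((n : ℤ) : FF K) = HahnSeries.C ((n : ℤ) : K) := by
    rw [map_intCast]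
  rw [h1, ← map_inv₀]
  intro j hj
  rw [HahnSeries.C_apply, HahnSeries.coeff_single_of_ne]
  omega

theorem tor_EE (l : Fin r → ℤ) (β : Rt C) :
    (tg hC K l).1 (EE β.neg) = (tt K ^ (-(ip C β.1 l))) • (EE β.neg : LieV C (FF K)) := by
  rw [isTor_tg hC l (EE β.neg)]
  refine Prod.ext ?_ ?_
  · funext i
    show (0 : FF K) = (tt K ^ (-(ip C β.1 l))) * (0 : FF K)
    rw [mul_zero]
  · funext γ
    show tt K ^ (ip C γ.1 l) * (EE β.neg : LieV C (FF K)).2 γ =
      tt K ^ (-(ip C β.1 l)) * (EE β.neg : LieV C (FF K)).2 γ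
    by_cases h : γ = β.neg
    · subst h
      rw [Rt.neg_val, ip_neg_left]
    · have h2 : (EE β.neg : LieV C (FF K)).2 γ = 0 := by
        unfold EE
        exact if_neg h
      rw [h2, mul_zero, mul_zero]

omit hC in
theorem Cd_EE (β : Rt C) : Cd (Bd K 0) (EE β.neg : LieV C (FF K)) := by
  have hF := H22.hF1 K
  refine ⟨fun i => hF.1 0, fun γ => ?_⟩
  by_cases h : γ = β.neg
  · have h2 : (EE β.neg : LieV C (FF K)).2 γ = ((1 : ℤ) : FF K) := by
      unfold EE
      rw [Int.cast_one]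
      exact if_pos h
    rw [h2]
    exact hF.2.2.2.2.2.1 1
  · have h2 : (EE β.neg : LieV C (FF K)).2 γ = 0 := by
      unfold EE
      exact if_neg h
    rw [h2]
    exact hF.1 0

theorem fix_Bd {u : grp C K} {l : Fin r → ℤ} (hu : u • tp hC K l = tp hC K l) (β : Rt C)
    (i : Fin r) : (u.1 (EE β.neg)).1 i ∈ Bd K (ip C β.1 l) := by
  have hF := H22.hF1 K
  have h1 : (tg hC K (-l) * u * tg hC K l) ∈ maxK C K := by
    rw [mem_maxK_iff, mul_smul, mul_smul, tp_smul, hu, tg_tp, neg_add_cancel, tp_zero]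
  have h2 := (h1 (EE β.neg)).mpr (Cd_EE β)
  have h3 := h2.1 i
  have h4 : ((tg hC K (-l) * u * tg hC K l).1 (EE β.neg)).1 i =
      tt K ^ (-(ip C β.1 l)) * (u.1 (EE β.neg)).1 i := by
    have e1 : (tg hC K (-l) * u * tg hC K l).1 (EE β.neg) =
        (tg hC K (-l)).1 (u.1 ((tg hC K l).1 (EE β.neg))) := rfl
    rw [e1, tor_EE hC l β, map_smul, map_smul, isTor_tg hC (-l) (u.1 (EE β.neg))]
    rfl
  rw [h4] at h3
  have h5 := (hF.2.2.2.2.2.2.2.1 (ip C β.1 l)
    (tt K ^ (-(ip C β.1 l)) * (u.1 (EE β.neg)).1 i)).mpr h3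
  rw [← mul_assoc, ← zpow_add₀ hF.2.2.2.2.2.2.1, add_neg_cancel, zpow_zero, one_mul] at h5
  exact h5

end

/-- **COO** -/
theorem coo : CooStmt := by
  intro r C hC K _
  have hF := H22.hF1 K
  refine ⟨cc hC, ?_, ?_, ?_, ?_, ?_, ?_, ?_⟩
  · intro h u v β hh hu hv hβ
    unfold cc
    rw [uh_add hC hh hu hv hβ, Pi.add_apply]
    ring
  · intro β a _
    apply cc_of hC
    funext i
    rw [H38.xg_EE hC β β a i, if_pos rfl]
  · intro β γ a _ _ hne
    apply cc_of hC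
    funext i
    rw [H38.xg_EE hC β γ a i, if_neg hne, zero_mul, neg_zero]
  · intro h u β hh hu hβ
    apply cc_of hC
    rw [uh_zero hC hh hu hβ]
    funext i
    rw [zero_mul, neg_zero]
    rfl
  · intro h u hh hu hz
    rw [UH_eq hC (Nat.le_succ_of_le hh)]
    have hu' := hu
    rw [UH_eq hC hh] at hu'
    refine (H22.hCar r C hC K (rho C) (dom_rho hC) h).2.1 u hu' fun β _ hβ => ?_
    rw [uh_fst hC hh hu hβ, hz β hβ]
    funext i
    rw [zero_mul, neg_zero]
    rfl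
  · intro h u β l _ _ _ hfix
    have h1 := fix_Bd hC hfix β (ix hC K β)
    have h2 := hF.2.2.1 _ _ h1
    have h3 := hF.2.2.2.1 _ _ _ _ h2 (inv_mem_Bd (K := K) (β.1 (ix hC K β)))
    rw [add_zero] at h3
    unfold cc
    rw [div_eq_mul_inv]
    exact h3
  · have := H22.hRF r C hC
    obtain ⟨M, hM⟩ := (Set.finite_range (fun β : Rt C => ht β)).bddAbove
    refine ⟨M.toNat + 1, fun h hh => ?_⟩
    unfold UH
    rw [Subgroup.closure_eq_bot_iff]
    rintro g ⟨β, a, h1, -⟩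
    exfalso
    have h2 : ht β ≤ M := hM ⟨β, rfl⟩
    have h3 : M ≤ M.toNat := Int.self_le_toNat M
    omega

end Pool.Agent.TMP.H63
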