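import Pool.Agent.Helper84_TMP.Stmt

/-! # SL2 relation (module SLT, MP_eadad4_nt, squad TMP) -/

set_option autoImplicit false

namespace Pool.Agent.TMP.H63

open Pool.Agent.DEN Pool.Agent.TMP

section

variable {r : ℕ} {C : Matrix (Fin r) (Fin r) ℤ} {K : Type} [Field K] (hC : SimplyLaced C)

/-- `h_β(c) = w_β(c) w_β(1)⁻¹` -/
noncomputable def hh (β : Rt C) (c : FF K) : grp C K := wg hC β c * (wg hC β (1 : FF K))⁻¹

theorem hh_mul (β : Rt C) {c e : FF K} (hc : c ≠ 0) (he : e ≠ 0) :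
    hh hC β c * hh hC β e = hh hC β (c * e) := by
  apply grp_ext
  intro v
  have h1 := H22.relH r C hC K β c hc
  have h2 := H22.relH r C hC K β e he
  have h3 := H22.relH r C hC K β (c * e) (mul_ne_zero hc he)
  have h4 : (hh hC β c * hh hC β e).1 v = (hh hC β c).1 ((hh hC β e).1 v) := rfl
  rw [h4]
  unfold hh
  rw [h2, h1, h3]
  ext γ
  · rfl
  · simp only
    rw [mul_zpow, mul_assoc]

theorem hh_xg (β : Rt C) {c : FF K} (hc : c ≠ 0) (e : FF K) :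
    hh hC β c * xg hC β e = xg hC β (c ^ 2 * e) * hh hC β c := by
  have h1 := (H22.relC r C hC K β (1 : FF K) one_ne_zero e).2.1
  have h2 := (H22.relC r C hC K β c hc e).2.1
  rw [one_pow, one_mul] at h1
  have h3 : xg hC β e = wg hC β 1 * xg hC β.neg e * (wg hC β 1)⁻¹ := h1.symm
  unfold hh
  rw [← h2, h3]
  group

/-- `x_{-β}(a) = x_β(-1/a) w_β(1/a) x_β(-1/a)` -/
theorem neg_eq (β : Rt C) {a : FF K} :
    xg hC β.neg a = xg hC β (-a⁻¹) * wg hC β a⁻¹ * xg hC β (-a⁻¹) := by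
  have h1 : xg hC β (-a⁻¹) = (xg hC β a⁻¹)⁻¹ := (xg_inv hC β a⁻¹).symm
  rw [h1, wg, inv_inv]
  group

end

/-- **SLT** -/
theorem slt : SltStmt := by
  intro r C hC K _ β a b hD
  obtain ⟨D, hDd⟩ : ∃ D, D = 1 - a * b := ⟨_, rfl⟩
  rw [← hDd] at hD ⊢
  change xg hC β.neg a * xg hC β b = xg hC β (b / D) * hh hC β D⁻¹ * xg hC β.neg (a / D)
  by_cases ha : a = 0
  · subst ha
    have hD1 : D = 1 := by rw [hDd]; ring
    subst hD1
    rw [zero_div, xg_zero, one_mul, div_one, mul_one, inv_one]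
    unfold hh
    rw [mul_inv_cancel, mul_one]
  have hDi : D⁻¹ ≠ 0 := inv_ne_zero hD
  have haD : a / D ≠ 0 := div_ne_zero ha hD
  have haDi : (a / D)⁻¹ ≠ 0 := inv_ne_zero haD
  have e1 : hh hC β D⁻¹ * wg hC β (a / D)⁻¹ = wg hC β a⁻¹ := by
    have h1 := hh_mul (K := K) hC β hDi haDi
    have h2 : D⁻¹ * (a / D)⁻¹ = a⁻¹ := by field_simp
    rw [h2] at h1
    have h3 : ∀ c : FF K, wg hC β c = hh hC β c * wg hC β 1 := by
      intro c; unfold hh; group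
    rw [h3 (a / D)⁻¹, h3 a⁻¹, ← mul_assoc, h1]
  have e2 : hh hC β D⁻¹ * xg hC β (-(a / D)⁻¹) =
      xg hC β (-(a * D)⁻¹) * hh hC β D⁻¹ := by
    rw [hh_xg hC β hDi]
    congr 2
    field_simp
  rw [neg_eq hC β (a := a), neg_eq hC β (a := a / D)]
  calc xg hC β (-a⁻¹) * wg hC β a⁻¹ * xg hC β (-a⁻¹) * xg hC β b
      = xg hC β (-a⁻¹) * wg hC β a⁻¹ * (xg hC β (-a⁻¹) * xg hC β b) := by group
    _ = xg hC β (-a⁻¹) * wg hC β a⁻¹ * xg hC β (-(a / D)⁻¹) := by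
        rw [← xg_add]
        congr 2
        rw [inv_div, hDd]
        field_simp
        ring
    _ = (xg hC β (b / D) * xg hC β (-(a * D)⁻¹)) * wg hC β a⁻¹ * xg hC β (-(a / D)⁻¹) := by
        rw [← xg_add]
        congr 3
        have h5 : a * D ≠ 0 := mul_ne_zero ha hD
        field_simp
        rw [hDd]; ring
    _ = xg hC β (b / D) * (xg hC β (-(a * D)⁻¹) * hh hC β D⁻¹) * wg hC β (a / D)⁻¹ *
          xg hC β (-(a / D)⁻¹) := by
        rw [← e1]; group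
    _ = xg hC β (b / D) * (hh hC β D⁻¹ * xg hC β (-(a / D)⁻¹)) * wg hC β (a / D)⁻¹ *
          xg hC β (-(a / D)⁻¹) := by rw [e2]
    _ = _ := by group

end Pool.Agent.TMP.H63
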